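import Mathlib

namespace Pool.Agent.Results.MP_31821e_co.Retr

/-- Order-preserving idempotent self-maps, ordered pointwise. -/
abbrev Rt (L : Type) [Preorder L] := {r : L → L // Monotone r ∧ r ∘ r = r}

theorem lub {L : Type} [CompleteLattice L] (S : Set (Rt L)) : ∃ g, IsLUB S g := by
  let f : L → L := fun x => ⨆ r ∈ S, r.1 x
  have hf : ∀ r ∈ S, ∀ x, r.1 x ≤ f x := fun r hr x => le_iSup₂ (f := fun r (_ : r ∈ S) => r.1 x) r hr
  have fm : Monotone f := fun x y h => iSup₂_le fun r hr => (r.2.1 h).trans (hf r hr y)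
  have ff : ∀ x, f x ≤ f (f x) := fun x => iSup₂_le fun r hr => by
    have : r.1 x = r.1 (r.1 x) := (congrFun r.2.2 x).symm
    rw [this]
    exact (r.2.1 (hf r hr x)).trans (hf r hr _)
  let g : L → L := fun x => sInf {y | f x ≤ y ∧ f y ≤ y}
  have g1 : ∀ x, f x ≤ g x := fun x => le_sInf fun y hy => hy.1
  have g2 : ∀ x, f (g x) ≤ g x := fun x => le_sInf fun y hy => (fm (sInf_le hy)).trans hy.2
  have gm : Monotone g := fun x y h => sInf_le ⟨(fm h).trans (g1 y), g2 y⟩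
  have gg : g ∘ g = g := by
    funext x
    exact le_antisymm (sInf_le ⟨g2 x, g2 x⟩)
      (sInf_le ⟨(ff x).trans ((fm (g1 x)).trans (g1 _)), g2 _⟩)
  refine ⟨⟨g, gm, gg⟩, fun r hr x => (hf r hr x).trans (g1 x), fun t ht x => ?_⟩
  have h1 : ∀ y, f y ≤ t.1 y := fun y => iSup₂_le fun r hr => ht hr y
  exact sInf_le ⟨h1 x, (h1 _).trans (congrFun t.2.2 x).le⟩

def r0 : Rt ℤ := ⟨fun x => 2 * ((x + 1) / 2), fun x y h => by dsimp only; omega,
  by funext x; simp only [Function.comp]; omega⟩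

def r1 : Rt ℤ := ⟨fun x => 2 * (x / 2) + 1, fun x y h => by dsimp only; omega,
  by funext x; simp only [Function.comp]; omega⟩

theorem result :
    (∃ (L : Type) (_ : Lattice L) (r s : Rt L), ¬ ∃ t, IsLUB {r, s} t) ∧
    (∀ (L : Type) [CompleteLattice L] (S : Set (Rt L)), (∃ g, IsLUB S g) ∧ ∃ g, IsGLB S g) := by
  refine ⟨⟨ℤ, inferInstance, r0, r1, ?_⟩, fun L _ S => ⟨lub S, ?_⟩⟩
  · rintro ⟨t, ht, -⟩
    have h0 : 2 * ((t.1 0 + 1) / 2) ≤ t.1 (t.1 0) := ht (Set.mem_insert _ _) (t.1 0)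
    have h1 : 2 * (t.1 0 / 2) + 1 ≤ t.1 (t.1 0) :=
      ht (Set.mem_insert_of_mem _ (Set.mem_singleton _)) (t.1 0)
    have h2 : t.1 (t.1 0) = t.1 0 := congrFun t.2.2 0
    omega
  · obtain ⟨g, hg⟩ := lub (lowerBounds S)
    exact ⟨g, isLUB_lowerBounds.1 hg⟩

end Pool.Agent.Results.MP_31821e_co.Retr
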